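import Pool.Agent.LPW.StmtsF

/-!
# Squad LPW, row CNJ: conjugate roots
-/

set_option autoImplicit false

open Polynomial
open Pool.Agent.LUB (spr)

namespace Pool.Agent.LPW.H68

open Pool.Agent.LPW

/-- the value of `h(T, θ)` as a ring homomorphism -/
noncomputable def evT {Ω : Type} [Field Ω] (T θ : Ω) : ℤ[X][X] →+* Ω :=
  (evalRingHom θ).comp (mapRingHom (eval₂RingHom (Int.castRingHom Ω) T))

theorem evT_apply {Ω : Type} [Field Ω] (T θ : Ω) (h : ℤ[X][X]) :
    evT T θ h = (spr h T).eval θ := rfl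

/-- the kernel of `evT` -/
theorem evT_eq_zero_iff {Ω : Type} [Field Ω] [CharZero Ω] {T θ : Ω} (hT : Transcendental ℚ T)
    {f : ℤ[X][X]} (hm : f.Monic) (hi : Irreducible f) (h0 : (spr f T).eval θ = 0) (h : ℤ[X][X]) :
    evT T θ h = 0 ↔ f ∣ h := by
  constructor
  · intro hh
    let E : ℤ[X] →+* Ω := eval₂RingHom (Int.castRingHom Ω) T
    have hE : Function.Injective E := by
      rw [injective_iff_map_eq_zero]
      intro p hp
      by_contra hp0
      refine hT ⟨p.map (Int.castRingHom ℚ), ?_, ?_⟩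
      · rw [Ne, Polynomial.map_eq_zero_iff (Int.castRingHom ℚ).injective_int]
        exact hp0
      · rw [aeval_def, eval₂_map]
        have e : (algebraMap ℚ Ω).comp (Int.castRingHom ℚ) = Int.castRingHom Ω :=
          RingHom.ext_int _ _
        rw [e]
        exact hp
    let K := FractionRing ℤ[X]
    let ι : K →+* Ω := IsFractionRing.lift (g := E) hE
    have hι : ι.comp (algebraMap ℤ[X] K) = E :=
      RingHom.ext fun x => IsFractionRing.lift_algebraMap hE x
    have hirr : Irreducible (f.map (algebraMap ℤ[X] K)) :=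
      (hm.irreducible_iff_irreducible_map_fraction_map (K := K)).1 hi
    have hev : ∀ g : ℤ[X][X], ((g.map (algebraMap ℤ[X] K)).map ι).eval θ = evT T θ g := by
      intro g
      rw [Polynomial.map_map, hι]
      rfl
    by_contra hnd
    have hnd' : ¬ f.map (algebraMap ℤ[X] K) ∣ h.map (algebraMap ℤ[X] K) := by
      rw [Polynomial.map_dvd_map _ (IsFractionRing.injective ℤ[X] K) hm]
      exact hnd
    obtain ⟨a, b, hab⟩ := (hirr.coprime_iff_not_dvd).2 hnd'
    have h1 := congrArg (fun g : K[X] => (g.map ι).eval θ) hab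
    simp only [Polynomial.map_add, Polynomial.map_mul, eval_add, eval_mul, Polynomial.map_one,
      eval_one] at h1
    rw [hev, hev, hh, evT_apply, h0, mul_zero, mul_zero, add_zero] at h1
    exact zero_ne_one h1
  · rintro ⟨g, rfl⟩
    rw [map_mul, evT_apply, h0, zero_mul]

/-- a relation as a polynomial -/
theorem evT_rel {F : Type} [Field F] (B : ℤ[X][X] →+* F) (a b : ℤ[X][X]) (hb : B b ≠ 0)
    (p : ℤ[X]) :
    B (∑ k ∈ Finset.range (p.natDegree + 1),
      ((p.coeff k : ℤ) : ℤ[X][X]) * a ^ k * b ^ (p.natDegree - k)) =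
      B b ^ p.natDegree * aeval (B a / B b) p := by
  rw [map_sum, aeval_eq_sum_range, Finset.mul_sum]
  refine Finset.sum_congr rfl fun k hk => ?_
  have hk' : k ≤ p.natDegree := Nat.lt_succ_iff.1 (Finset.mem_range.1 hk)
  rw [map_mul, map_mul, map_intCast, map_pow, map_pow, zsmul_eq_mul, div_pow]
  have h1 : B b ^ p.natDegree = B b ^ (p.natDegree - k) * B b ^ k := by
    rw [← pow_add, Nat.sub_add_cancel hk']
  rw [h1]
  have h2 : B b ^ k ≠ 0 := pow_ne_zero k hb
  field_simp

theorem zpow_eq_div {F : Type} [Field F] (x : F) (m : ℤ) :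
    x ^ m = x ^ m.toNat / x ^ (-m).toNat := by
  rcases Int.eq_nat_or_neg m with ⟨n, rfl | rfl⟩
  · simp
  · simp

/-- ROW CNJ. -/
theorem cnj : CnjStmt := by
  intro Ω Ω' _ _ _ _ T θ T' θ' hT hT' r f u hm hi h0 h0' m halg
  have hker : ∀ h : ℤ[X][X], evT T θ h = 0 ↔ evT T' θ' h = 0 := fun h =>
    (evT_eq_zero_iff hT hm hi h0 h).trans (evT_eq_zero_iff hT' hm hi h0' h).symm
  let a : ℤ[X][X] := ∏ i, u i ^ (m i).toNat
  let b : ℤ[X][X] := ∏ i, u i ^ (-m i).toNat
  have hab : ∀ {F : Type} [Field F] (B : ℤ[X][X] →+* F), ∏ i, B (u i) ^ m i = B a / B b := by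
    intro F _ B
    rw [map_prod, map_prod, ← Finset.prod_div_distrib]
    refine Finset.prod_congr rfl fun i _ => ?_
    rw [map_pow, map_pow, zpow_eq_div]
  have e1 : ∏ i, (spr (u i) T).eval θ ^ m i = evT T θ a / evT T θ b := hab (evT T θ)
  have e2 : ∏ i, (spr (u i) T').eval θ' ^ m i = evT T' θ' a / evT T' θ' b := hab (evT T' θ')
  rw [e1] at halg
  rw [e2]
  by_cases hb : evT T θ b = 0
  · rw [(hker b).1 hb, div_zero]
    exact isAlgebraic_zero
  · have hb' : evT T' θ' b ≠ 0 := fun h => hb ((hker b).2 h)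
    obtain ⟨p, hp0, hp⟩ := (IsFractionRing.isAlgebraic_iff ℤ ℚ Ω).2 halg
    have h1 := evT_rel (evT T θ) a b hb p
    rw [hp, mul_zero] at h1
    have h2 := (hker _).1 h1
    rw [evT_rel (evT T' θ') a b hb' p] at h2
    have h3 : aeval (evT T' θ' a / evT T' θ' b) p = 0 :=
      (mul_eq_zero.1 h2).resolve_left (pow_ne_zero _ hb')
    exact (IsFractionRing.isAlgebraic_iff ℤ ℚ Ω').1 ⟨p, hp0, h3⟩

end Pool.Agent.LPW.H68
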